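import Pool.Agent.HS37.LD.Tsum

/-! The determinant `|x + (j+k|p) + (j-k|p) + (j|p) y + (jk|p) w|` for `p ≡ 3 (mod 4)`. -/

set_option autoImplicit false

namespace Pool.Agent.HS37.LD

open Finset Matrix Pool.Agent.R945.LD

variable {p : ℕ} [Fact p.Prime]

/-- the matrix -/
noncomputable def Em (p : ℕ) [Fact p.Prime] (n : ℕ) {R : Type*} [CommRing R] (x y w : R) :
    Matrix (Fin n) (Fin n) R :=
  Matrix.of fun j k => x + Bm p n R j k + xv p n R j * y + xv p n R j * xv p n R k * w

theorem det_Em (h3 : p % 4 = 3) {n : ℕ} (hn : p = 2 * n + 1) {R : Type*} [CommRing R] (x y w c : R)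
    (hc : c * (p : R) = 1) :
    (Em p n x y w).det = (Bm p n R).det *
      (1 - n * y - (H p n : R) * (w + x) + c * ((H p n ^ 2 + n * RR p n : ℤ) : R) * (x * w)) := by
  have hcast : ∀ j k, Bm p n R j k = ((Bm p n ℤ j k : ℤ) : R) := fun j k => by simp [Bm]
  have hB1 : ∀ j, ∑ k, Bm p n R j k = - xv p n R j := by
    intro j
    have h := congrArg (Int.cast : ℤ → R) (sum_B hn (J p j))
    push_cast at h
    simp only [Bm, Matrix.of_apply, xv]
    push_cast
    rw [h]
  have hBB : ∀ j l, ∑ k, Bm p n R j k * Bm p n R l k =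
      (if j = l then (p : R) else 0) - 2 * xv p n R j * xv p n R l := by
    intro j l
    have h := congrArg (Int.cast : ℤ → R) (sum_BBt h3 hn j l)
    simp only [Bm, Matrix.of_apply, xv]
    push_cast at h ⊢
    rw [h]
  have hH : ∑ k, xv p n R k = (H p n : R) := by
    unfold H
    rw [← sum_J (p := p) (n := n) (fun a => q p a)]
    simp only [xv]
    push_cast
    rfl
  have hR : ∑ k, ∑ j, Bm p n R j k * xv p n R k = (RR p n : R) := by
    rw [sum_comm]
    unfold RR
    simp only [Bm, Matrix.of_apply, xv]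
    push_cast
    rfl
  have hpn : (p : R) = 2 * n + 1 := by
    have : (p : R) = ((2 * n + 1 : ℕ) : R) := by rw [← hn]
    rw [this]; push_cast; ring
  set g : Fin n → R := fun k => c * (∑ j, Bm p n R j k - 2 * (H p n : R)) with hg
  have hBg : ∀ j, ∑ k, Bm p n R j k * g k = 1 := by
    intro j
    have e : ∀ k, Bm p n R j k * g k = c * (∑ l, Bm p n R j k * Bm p n R l k) -
        2 * c * (H p n : R) * Bm p n R j k := by
      intro k
      rw [← mul_sum]
      simp only [hg]
      ring
    rw [sum_congr rfl (fun k _ => e k), sum_sub_distrib, ← mul_sum, ← mul_sum, hB1, sum_comm,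
      sum_congr rfl (fun l _ => hBB j l), sum_sub_distrib, ← mul_sum, hH]
    simp only [sum_ite_eq, mem_univ, if_true]
    linear_combination hc
  have hg1 : ∑ k, g k = - (H p n : R) := by
    simp only [hg]
    rw [← mul_sum, sum_sub_distrib, sum_comm, sum_congr rfl (fun j _ => hB1 j), sum_neg_distrib, hH]
    simp only [sum_const, card_univ, Fintype.card_fin, nsmul_eq_mul]
    rw [hpn] at hc
    linear_combination (-(H p n : R)) * hc
  have hgx : ∑ k, xv p n R k * g k = c * ((RR p n : R) - 2 * (H p n : R) ^ 2) := by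
    have e : ∀ k, xv p n R k * g k = c * (∑ j, Bm p n R j k * xv p n R k) -
        2 * c * (H p n : R) * xv p n R k := by
      intro k
      rw [← sum_mul]
      simp only [hg]
      ring
    rw [sum_congr rfl (fun k _ => e k), sum_sub_distrib, ← mul_sum, ← mul_sum, hH, hR]
    ring
  clear_value g
  clear hg
  set U : Matrix (Fin n) (Fin 2) R := Matrix.of fun k i => if i = 0 then g k else 1 with hU
  set V : Matrix (Fin 2) (Fin n) R := Matrix.of fun i k => if i = 0 then x else - y - w * xv p n R k with hV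
  have hfac : Em p n x y w = Bm p n R * (1 + U * V) := by
    rw [Matrix.mul_add, Matrix.mul_one, ← Matrix.mul_assoc]
    ext j k
    rw [Matrix.add_apply, Matrix.mul_apply, Fin.sum_univ_two, Matrix.mul_apply, Matrix.mul_apply]
    simp only [Em, hU, hV, Matrix.of_apply, if_true, one_ne_zero, if_false, mul_one, hBg, hB1]
    ring
  rw [hfac, det_mul, det_one_add_mul_comm, det_fin_two]
  simp only [Matrix.add_apply, Matrix.one_apply, Matrix.mul_apply, hU, hV, Matrix.of_apply, if_true,
    one_ne_zero, zero_ne_one, if_false, mul_one, ← mul_sum]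
  have e1 : ∑ k, (-y - w * xv p n R k) * g k = y * (H p n : R) - w * (c * ((RR p n : R) - 2 * (H p n : R) ^ 2)) := by
    have e : ∀ k, (-y - w * xv p n R k) * g k = -y * g k - w * (xv p n R k * g k) := by
      intro k; ring
    rw [sum_congr rfl (fun k _ => e k), sum_sub_distrib, ← mul_sum, ← mul_sum, hg1, hgx]
    ring
  have e2 : ∑ k : Fin n, (-y - w * xv p n R k) = - n * y - w * (H p n : R) := by
    rw [sum_sub_distrib, ← mul_sum, hH]
    simp
  rw [e1, e2, hg1]
  simp only [sum_const, card_univ, Fintype.card_fin, nsmul_eq_mul]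
  push_cast
  rw [hpn] at hc
  linear_combination (-(Bm p n R).det * (H p n : R) ^ 2 * (x * w)) * hc

end Pool.Agent.HS37.LD
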