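import Mathlib

/-! The number `C = ∑ f(i) f(j)`, the sum over `i, j ≥ 1`, `i + j ≤ 2m + 1`, modulo `8`, for functions
`f` with values `±1` and `f(2i) = f(2) f(i)`. -/

set_option autoImplicit false

namespace Pool.Agent.HS37.LD

open Finset

/-- the pairs `i, j ≥ 1`, `i + j ≤ n` -/
def D (n : ℕ) : Finset (ℕ × ℕ) :=
  (Icc 1 n ×ˢ Icc 1 n).filter fun x => x.1 + x.2 ≤ n

lemma mem_D {n : ℕ} {x : ℕ × ℕ} : x ∈ D n ↔ 1 ≤ x.1 ∧ 1 ≤ x.2 ∧ x.1 + x.2 ≤ n := by
  simp only [D, mem_filter, mem_product, mem_Icc]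
  omega

/-- sums over `D` of a function of the first coordinate -/
lemma sum_D_fst {M : Type*} [AddCommMonoid M] (n : ℕ) (g : ℕ → M) :
    ∑ x ∈ D n, g x.1 = ∑ i ∈ Icc 1 n, (n - i) • g i := by
  unfold D
  rw [sum_filter, sum_product]
  refine sum_congr rfl fun i hi => ?_
  rw [mem_Icc] at hi
  rw [← sum_filter]
  simp only
  rw [sum_const]
  congr 1
  have : (Icc 1 n).filter (fun j => i + j ≤ n) = Icc 1 (n - i) := by
    ext j
    simp only [mem_filter, mem_Icc]
    omega
  rw [this, Nat.card_Icc]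
  omega

lemma sum_D_swap {M : Type*} [AddCommMonoid M] (n : ℕ) (g : ℕ → ℕ → M) :
    ∑ x ∈ D n, g x.2 x.1 = ∑ x ∈ D n, g x.1 x.2 := by
  apply sum_nbij' Prod.swap Prod.swap
  · intro x hx; rw [mem_D] at hx ⊢; simp only [Prod.fst_swap, Prod.snd_swap]; omega
  · intro x hx; rw [mem_D] at hx ⊢; simp only [Prod.fst_swap, Prod.snd_swap]; omega
  · intro x _; simp
  · intro x _; simp
  · intro x _; simp

/-- the quadratic sum modulo `2` -/
lemma sum_D_sq (n : ℕ) (e : ℕ → ZMod 2) :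
    ∑ x ∈ D n, e x.1 * e x.2 = ∑ i ∈ (Icc 1 n).filter (fun i => 2 * i ≤ n), e i := by
  rw [← sum_filter_add_sum_filter_not (D n) (fun x => x.1 = x.2)]
  have h1 : ∑ x ∈ (D n).filter (fun x => ¬ x.1 = x.2), e x.1 * e x.2 = 0 := by
    apply sum_involution (fun x _ => Prod.swap x)
    · intro x _
      simp only [Prod.fst_swap, Prod.snd_swap]
      rw [mul_comm (e x.2), ← two_mul]
      have : (2 : ZMod 2) = 0 := rfl
      rw [this, zero_mul]
    · intro x hx _ h
      rw [mem_filter] at hx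
      apply hx.2
      have := congrArg Prod.fst h
      simpa using this.symm
    · intro x hx
      rw [mem_filter, mem_D] at hx ⊢
      simp only [Prod.fst_swap, Prod.snd_swap]
      refine ⟨by omega, fun h => hx.2 h.symm⟩
    · intro x _; simp
  rw [h1, add_zero]
  apply sum_nbij' (fun x => x.1) (fun i => (i, i))
  · intro x hx
    rw [mem_filter, mem_D] at hx
    rw [mem_filter, mem_Icc]
    obtain ⟨⟨h1, h2, h3⟩, h4⟩ := hx
    omega
  · intro i hi
    rw [mem_filter, mem_Icc] at hi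
    rw [mem_filter, mem_D]
    refine ⟨?_, rfl⟩
    simp only
    omega
  · intro x hx
    rw [mem_filter] at hx
    exact Prod.ext rfl hx.2
  · intro i _; rfl
  · intro x hx
    rw [mem_filter] at hx
    rw [← hx.2]
    have : ∀ a : ZMod 2, a * a = a := by decide
    exact this _

/-- `C ≡ m (2m+1) + 4 m ε(2) (mod 8)` -/
theorem C_mod {m : ℕ} (f e : ℕ → ℤ) (he : ∀ i, 1 ≤ i → i ≤ 2 * m + 1 → f i = 1 - 2 * e i)
    (h2 : ∀ i, 1 ≤ i → i ≤ m → (2 : ℤ) ∣ e (2 * i) - e 2 - e i) :
    (8 : ℤ) ∣ ∑ x ∈ D (2 * m + 1), f x.1 * f x.2 - (m * (2 * m + 1) + 4 * m * e 2) := by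
  set n := 2 * m + 1 with hn
  have h1 : ∑ x ∈ D n, f x.1 * f x.2 =
      (D n).card - 4 * ∑ x ∈ D n, e x.1 + 4 * ∑ x ∈ D n, e x.1 * e x.2 := by
    have e1 : ∀ x ∈ D n, f x.1 * f x.2 = 1 - 2 * e x.1 - 2 * e x.2 + 4 * (e x.1 * e x.2) := by
      intro x hx
      rw [mem_D] at hx
      rw [he x.1 hx.1 (by omega), he x.2 hx.2.1 (by omega)]
      ring
    rw [sum_congr rfl e1, sum_add_distrib, sum_sub_distrib, sum_sub_distrib, ← mul_sum, ← mul_sum,
      ← mul_sum, sum_D_swap n (fun a _ => e a)]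
    simp only [sum_const, nsmul_eq_mul, mul_one]
    ring
  have hcard : ((D n).card : ℤ) = m * (2 * m + 1) := by
    have h3 := sum_D_fst n (fun _ => (1 : ℤ))
    simp only [sum_const, nsmul_eq_mul, mul_one] at h3
    rw [h3, ← Nat.cast_sum]
    have h4 : ∀ k : ℕ, ∑ i ∈ Icc 1 k, (k - i) = ∑ i ∈ range k, i := by
      intro k
      rw [← sum_range_reflect]
      rw [range_eq_Ico, sum_Ico_eq_sum_range, ← Finset.Ico_add_one_right_eq_Icc, sum_Ico_eq_sum_range]
      apply sum_congr (by simp)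
      intro i _
      omega
    rw [h4, Finset.sum_range_id, hn]
    have : (2 * m + 1) * (2 * m + 1 - 1) / 2 = m * (2 * m + 1) := by
      rw [Nat.add_sub_cancel]
      rw [show (2 * m + 1) * (2 * m) = 2 * (m * (2 * m + 1)) by ring]
      omega
    rw [this]
    push_cast
    ring
  have hpar : (2 : ℤ) ∣ (∑ x ∈ D n, e x.1 * e x.2 - ∑ x ∈ D n, e x.1) - m * e 2 := by
    refine (ZMod.intCast_zmod_eq_zero_iff_dvd _ 2).1 ?_
    push_cast
    set E : ℕ → ZMod 2 := fun i => ((e i : ℤ) : ZMod 2) with hE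
    have hE2 : ∀ i, 1 ≤ i → i ≤ m → E (2 * i) = E 2 + E i := by
      intro i h3 h4
      have h5 := (ZMod.intCast_zmod_eq_zero_iff_dvd _ 2).2 (h2 i h3 h4)
      push_cast at h5
      simp only [hE]
      linear_combination h5
    have h3 : ∑ x ∈ D n, ((e x.1 : ℤ) : ZMod 2) * ((e x.2 : ℤ) : ZMod 2) = ∑ i ∈ Icc 1 m, E i := by
      have := sum_D_sq n E
      simp only [hE] at this
      rw [this]
      apply sum_congr _ (fun _ _ => rfl)
      ext i
      simp only [mem_filter, mem_Icc]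
      omega
    have h4 : ∑ x ∈ D n, ((e x.1 : ℤ) : ZMod 2) = ∑ i ∈ Icc 1 m, E (2 * i) := by
      have h5 := sum_D_fst n E
      simp only [hE] at h5
      rw [h5]
      have h6 : ∀ i ∈ Icc 1 n, (n - i) • E i = if i % 2 = 0 then E i else 0 := by
        intro i hi
        rw [mem_Icc] at hi
        rw [nsmul_eq_mul]
        have h7 : ((n - i : ℕ) : ZMod 2) = if i % 2 = 0 then 1 else 0 := by
          split_ifs with h
          · have : (n - i) % 2 = 1 := by omega
            rw [← Nat.cast_one, ZMod.natCast_eq_natCast_iff']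
            omega
          · rw [ZMod.natCast_eq_zero_iff]
            omega
        rw [h7]
        split_ifs <;> simp
      rw [sum_congr rfl h6, ← sum_filter]
      symm
      apply sum_nbij' (fun i => 2 * i) (fun i => i / 2)
      · intro i hi; rw [mem_Icc] at hi; rw [mem_filter, mem_Icc]; omega
      · intro i hi; rw [mem_filter, mem_Icc] at hi; rw [mem_Icc]; omega
      · intro i _; omega
      · intro i hi; rw [mem_filter, mem_Icc] at hi; omega
      · intro i _; rfl
    rw [h3, h4, sum_congr rfl (fun i hi => hE2 i (mem_Icc.1 hi).1 (mem_Icc.1 hi).2), sum_add_distrib,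
      sum_const, Nat.card_Icc, Nat.add_sub_cancel, nsmul_eq_mul]
    have h8 : (2 : ZMod 2) = 0 := rfl
    simp only [hE]
    linear_combination (-(m : ZMod 2) * ((e 2 : ℤ) : ZMod 2)) * h8
  rw [h1, hcard]
  obtain ⟨c, hc⟩ := hpar
  exact ⟨c, by linear_combination 4 * hc⟩

end Pool.Agent.HS37.LD
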