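import Pool.Agent.HS37.LD.Mod8
import Pool.Agent.R945.LD.BThree

/-! The integer `T = H² + n ∑_{j,k} (q(j+k) + q(j-k)) q(k)` is divisible by `16`. -/

set_option autoImplicit false

namespace Pool.Agent.HS37.LD

open Finset Pool.Agent.R945.LD

variable {p : ℕ} [Fact p.Prime]

/-- sums over `Fin n` as sums over `1, …, n` -/
lemma sum_J {n : ℕ} (g : ZMod p → ℤ) : ∑ j : Fin n, g (J p j) = ∑ i ∈ Icc 1 n, g (i : ZMod p) := by
  rw [Fin.sum_univ_eq_sum_range (fun j => g (J p j))]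
  rw [← Finset.Ico_add_one_right_eq_Icc, sum_Ico_eq_sum_range]
  apply sum_congr (by simp)
  intro i _
  unfold J
  congr 1
  push_cast
  ring

lemma cast_ne {n : ℕ} (hn : p = 2 * n + 1) {i : ℕ} (h1 : 1 ≤ i) (h2 : i ≤ 2 * n) : (i : ZMod p) ≠ 0 := by
  intro h
  rw [ZMod.natCast_eq_zero_iff] at h
  have := Nat.le_of_dvd (by omega) h
  omega

/-- the half sum -/
noncomputable def H (p : ℕ) [Fact p.Prime] (n : ℕ) : ℤ := ∑ i ∈ Icc 1 n, q p (i : ZMod p)

/-- the sum over the pairs with `i + j ≤ n` -/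
noncomputable def CC (p : ℕ) [Fact p.Prime] (n : ℕ) : ℤ :=
  ∑ x ∈ D n, q p (x.1 : ZMod p) * q p (x.2 : ZMod p)

/-- `∑_{j,k} (q(j+k) + q(j-k)) q(k)` -/
noncomputable def RR (p : ℕ) [Fact p.Prime] (n : ℕ) : ℤ :=
  ∑ j : Fin n, ∑ k : Fin n, (q p (J p j + J p k) + q p (J p j - J p k)) * q p (J p k)

section three

variable (h3 : p % 4 = 3)

include h3

lemma RR_eq {n : ℕ} (hn : p = 2 * n + 1) :
    RR p n = 2 * (∑ j : Fin n, ∑ k : Fin n, q p (J p j - J p k) * q p (J p k)) - n := by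
  have hp2 : p ≠ 2 := by omega
  unfold RR
  rw [sum_comm, sum_comm (f := fun j k : Fin n => q p (J p j - J p k) * q p (J p k))]
  have e : ∀ k : Fin n, ∑ j : Fin n, (q p (J p j + J p k) + q p (J p j - J p k)) * q p (J p k) =
      2 * ∑ j : Fin n, q p (J p j - J p k) * q p (J p k) - 1 := by
    intro k
    have h := fold n hn (fun c => q p (c + J p k))
    have h2 : ∑ c : ZMod p, q p (c + J p k) = 0 := by
      rw [← q_sum hp2]
      exact Fintype.sum_equiv (Equiv.addRight (J p k)) _ _ (fun _ => rfl)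
    simp only [h2, zero_add, zero_sub] at h
    have e1 : ∀ j : Fin n, q p (J p j + J p k) + q p (-(J p j) + J p k) =
        q p (J p j + J p k) - q p (J p j - J p k) := by
      intro j
      have : -(J p j) + J p k = -(J p j - J p k) := by ring
      rw [this, q_odd h3]
      ring
    rw [sum_congr rfl (fun j _ => e1 j), sum_sub_distrib] at h
    rw [← sum_mul, ← sum_mul, sum_add_distrib]
    have h4 : q p (J p k) * q p (J p k) = 1 := q_sq (J_ne hn k)
    linear_combination q p (J p k) * h - h4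
  rw [sum_congr rfl (fun k _ => e k), sum_sub_distrib, ← mul_sum]
  simp

lemma HH_eq {n : ℕ} (hn : p = 2 * n + 1) :
    H p n ^ 2 = n + 2 * ∑ x ∈ (Icc 1 n ×ˢ Icc 1 n).filter (fun x => x.1 < x.2),
      q p (x.1 : ZMod p) * q p (x.2 : ZMod p) := by
  unfold H
  rw [sq, sum_mul_sum, ← sum_product', ← sum_filter_add_sum_filter_not _ (fun x => x.1 = x.2)]
  rw [← sum_filter_add_sum_filter_not ((Icc 1 n ×ˢ Icc 1 n).filter (fun x => ¬ x.1 = x.2))
    (fun x => x.1 < x.2)]
  have e1 : ∑ x ∈ (Icc 1 n ×ˢ Icc 1 n).filter (fun x => x.1 = x.2),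
      q p (x.1 : ZMod p) * q p (x.2 : ZMod p) = n := by
    have : ∑ x ∈ (Icc 1 n ×ˢ Icc 1 n).filter (fun x => x.1 = x.2),
      q p (x.1 : ZMod p) * q p (x.2 : ZMod p) = ∑ i ∈ Icc 1 n, (1 : ℤ) := by
      apply sum_nbij' (fun x => x.1) (fun i => (i, i))
      · intro x hx; rw [mem_filter, mem_product] at hx; exact hx.1.1
      · intro i hi; rw [mem_filter, mem_product]; exact ⟨⟨hi, hi⟩, rfl⟩
      · intro x hx; rw [mem_filter] at hx; exact Prod.ext rfl hx.2
      · intro i _; rfl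
      · intro x hx
        rw [mem_filter, mem_product, mem_Icc] at hx
        rw [← hx.2]
        exact q_sq (cast_ne hn hx.1.1.1 (by omega))
    rw [this]; simp
  rw [e1, filter_filter, filter_filter]
  have e2 : (Icc 1 n ×ˢ Icc 1 n).filter (fun x : ℕ × ℕ => ¬ x.1 = x.2 ∧ x.1 < x.2) =
      (Icc 1 n ×ˢ Icc 1 n).filter (fun x => x.1 < x.2) := by
    apply filter_congr; intro x _; omega
  have e3 : ∑ x ∈ (Icc 1 n ×ˢ Icc 1 n).filter (fun x : ℕ × ℕ => ¬ x.1 = x.2 ∧ ¬ x.1 < x.2),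
      q p (x.1 : ZMod p) * q p (x.2 : ZMod p) =
      ∑ x ∈ (Icc 1 n ×ˢ Icc 1 n).filter (fun x => x.1 < x.2),
      q p (x.1 : ZMod p) * q p (x.2 : ZMod p) := by
    apply sum_nbij' Prod.swap Prod.swap
    · intro x hx
      simp only [mem_filter, mem_product, Prod.fst_swap, Prod.snd_swap] at hx ⊢
      exact ⟨⟨hx.1.2, hx.1.1⟩, by omega⟩
    · intro x hx
      simp only [mem_filter, mem_product, Prod.fst_swap, Prod.snd_swap] at hx ⊢
      exact ⟨⟨hx.1.2, hx.1.1⟩, by omega⟩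
    · intro x _; simp
    · intro x _; simp
    · intro x _
      simp only [Prod.fst_swap, Prod.snd_swap]
      ring
  rw [e2, e3]
  ring

lemma Cp_eq {n : ℕ} (hn : p = 2 * n + 1) :
    2 * (∑ j : Fin n, ∑ k : Fin n, q p (J p j - J p k) * q p (J p k)) =
      2 * CC p n - H p n ^ 2 + n := by
  rw [HH_eq h3 hn]
  have e0 : ∑ j : Fin n, ∑ k : Fin n, q p (J p j - J p k) * q p (J p k) =
      ∑ x ∈ Icc 1 n ×ˢ Icc 1 n, q p ((x.1 : ZMod p) - (x.2 : ZMod p)) * q p (x.2 : ZMod p) := by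
    rw [sum_product]
    rw [← sum_J (fun a => ∑ k ∈ Icc 1 n, q p (a - (k : ZMod p)) * q p (k : ZMod p))]
    apply sum_congr rfl
    intro j _
    rw [sum_J (fun b => q p (J p j - b) * q p b)]
  rw [e0, ← sum_filter_add_sum_filter_not _ (fun x => x.2 < x.1)]
  rw [← sum_filter_add_sum_filter_not ((Icc 1 n ×ˢ Icc 1 n).filter (fun x => ¬ x.2 < x.1))
    (fun x => x.1 < x.2), filter_filter, filter_filter]
  have e1 : ∑ x ∈ (Icc 1 n ×ˢ Icc 1 n).filter (fun x => x.2 < x.1),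
      q p ((x.1 : ZMod p) - (x.2 : ZMod p)) * q p (x.2 : ZMod p) = CC p n := by
    unfold CC
    apply sum_nbij' (fun x => (x.1 - x.2, x.2)) (fun x => (x.1 + x.2, x.2))
    · intro x hx
      rw [mem_filter, mem_product, mem_Icc, mem_Icc] at hx
      rw [mem_D]
      simp only
      omega
    · intro x hx
      rw [mem_D] at hx
      rw [mem_filter, mem_product, mem_Icc, mem_Icc]
      simp only
      omega
    · intro x hx
      rw [mem_filter] at hx
      refine Prod.ext ?_ rfl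
      simp only
      omega
    · intro x _
      refine Prod.ext ?_ rfl
      simp only
      omega
    · intro x hx
      rw [mem_filter] at hx
      simp only
      rw [Nat.cast_sub hx.2.le]
  have e2 : ∑ x ∈ (Icc 1 n ×ˢ Icc 1 n).filter (fun x => ¬ x.2 < x.1 ∧ x.1 < x.2),
      q p ((x.1 : ZMod p) - (x.2 : ZMod p)) * q p (x.2 : ZMod p) =
      - ∑ x ∈ (Icc 1 n ×ˢ Icc 1 n).filter (fun x => x.1 < x.2),
      q p (x.1 : ZMod p) * q p (x.2 : ZMod p) := by
    rw [← sum_neg_distrib]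
    apply sum_nbij' (fun x => (x.2 - x.1, x.2)) (fun x => (x.2 - x.1, x.2))
    · intro x hx
      rw [mem_filter, mem_product, mem_Icc, mem_Icc] at hx ⊢
      simp only
      omega
    · intro x hx
      rw [mem_filter, mem_product, mem_Icc, mem_Icc] at hx ⊢
      simp only
      omega
    · intro x hx
      rw [mem_filter, mem_product, mem_Icc, mem_Icc] at hx
      refine Prod.ext ?_ rfl
      simp only
      omega
    · intro x hx
      rw [mem_filter, mem_product, mem_Icc, mem_Icc] at hx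
      refine Prod.ext ?_ rfl
      simp only
      omega
    · intro x hx
      rw [mem_filter] at hx
      simp only
      rw [Nat.cast_sub hx.2.2.le]
      have : (x.1 : ZMod p) - (x.2 : ZMod p) = -((x.2 : ZMod p) - (x.1 : ZMod p)) := by ring
      rw [this, q_odd h3]
      ring
  have e3 : ∑ x ∈ (Icc 1 n ×ˢ Icc 1 n).filter (fun x => ¬ x.2 < x.1 ∧ ¬ x.1 < x.2),
      q p ((x.1 : ZMod p) - (x.2 : ZMod p)) * q p (x.2 : ZMod p) = 0 := by
    apply sum_eq_zero
    intro x hx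
    rw [mem_filter] at hx
    have : x.1 = x.2 := by omega
    rw [this, sub_self, q_zero, zero_mul]
  rw [e1, e2, e3]
  ring

/-- `H² + n R = (1 - n) H² + 2 n C` -/
lemma T_eq {n : ℕ} (hn : p = 2 * n + 1) :
    H p n ^ 2 + n * RR p n = (1 - n) * H p n ^ 2 + 2 * n * CC p n := by
  rw [RR_eq h3 hn, Cp_eq h3 hn]
  ring

theorem T_mod {n : ℕ} (hn : p = 2 * n + 1) : (16 : ℤ) ∣ H p n ^ 2 + n * RR p n := by
  have hp2 : p ≠ 2 := by omega
  rw [T_eq h3 hn]
  obtain ⟨m, hm⟩ : ∃ m, n = 2 * m + 1 := ⟨n / 2, by omega⟩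
  have hpm : ∀ i : ℕ, 1 ≤ i → i ≤ 2 * n → q p (i : ZMod p) = 1 ∨ q p (i : ZMod p) = -1 := by
    intro i h1 h2
    exact mul_self_eq_one_iff.mp (q_sq (cast_ne hn h1 h2))
  set e : ℕ → ℤ := fun i => (1 - q p (i : ZMod p)) / 2 with he
  have he1 : ∀ i : ℕ, 1 ≤ i → i ≤ 2 * n → q p (i : ZMod p) = 1 - 2 * e i := by
    intro i h1 h2
    rcases hpm i h1 h2 with h | h <;> simp only [he, h] <;> norm_num
  have hC := C_mod (m := m) (fun i => q p (i : ZMod p)) e (fun i h1 h2 => he1 i h1 (by omega)) (by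
    intro i h1 h2
    have h4 : q p ((2 * i : ℕ) : ZMod p) = q p ((2 : ℕ) : ZMod p) * q p (i : ZMod p) := by
      rw [← q_mul]; push_cast; rfl
    have h5 := he1 (2 * i) (by omega) (by omega)
    have h6 := he1 2 (by omega) (by omega)
    have h7 := he1 i (by omega) (by omega)
    rw [h5, h6, h7] at h4
    have h8 : e (2 * i) = e 2 + e i - 2 * (e 2 * e i) := by linarith
    exact ⟨-(e 2 * e i), by rw [h8]; ring⟩)
  rw [← hm] at hC
  have hC' : (8 : ℤ) ∣ CC p n - (m * (2 * m + 1) + 4 * m * e 2) := hC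
  -- `8 ∣ 4 m ε(2)`
  have h4 : (2 : ℤ) ∣ m * e 2 := by
    have hq2 : q p ((2 : ℕ) : ZMod p) = if p % 8 = 7 then 1 else -1 := by
      show quadraticChar (ZMod p) ((2 : ℕ) : ZMod p) = _
      push_cast
      rw [quadraticChar_two (ringChar_ne hp2), ZMod.card, ZMod.χ₈_nat_eq_if_mod_eight, if_neg (by omega)]
      by_cases h8 : p % 8 = 7
      · rw [if_pos (by omega), if_pos h8]
      · rw [if_neg (by omega), if_neg h8]
    by_cases h8 : p % 8 = 7
    · have : e 2 = 0 := by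
        simp only [he]
        rw [hq2, if_pos h8]; norm_num
      rw [this, mul_zero]; exact dvd_zero 2
    · have : (2 : ℤ) ∣ m := by omega
      exact Dvd.dvd.mul_right this _
  -- `H` is odd
  have hH : Odd (H p n) := by
    have : (2 : ℤ) ∣ H p n - n := by
      unfold H
      have e4 : ∑ i ∈ Icc 1 n, q p (i : ZMod p) - (n : ℤ) = ∑ i ∈ Icc 1 n, (q p (i : ZMod p) - 1) := by
        rw [sum_sub_distrib]; simp
      rw [e4]
      apply dvd_sum
      intro i hi
      rw [mem_Icc] at hi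
      rcases hpm i hi.1 (by omega) with h | h <;> rw [h] <;> norm_num
    rw [Int.odd_iff]
    omega
  have hH2 : (8 : ℤ) ∣ H p n ^ 2 - 1 := Int.eight_dvd_sq_sub_one_of_odd hH
  obtain ⟨a, ha⟩ := hH2
  obtain ⟨b, hb⟩ := hC'
  obtain ⟨c, hc⟩ := h4
  have e5 : H p n ^ 2 = 8 * a + 1 := by linarith
  have e6 : CC p n = 8 * b + (m * (2 * m + 1) + 8 * c) := by linarith
  rw [e5, e6]
  obtain ⟨d, hd⟩ : (2 : ℤ) ∣ (m : ℤ) * (m + 1) := (Int.even_mul_succ_self m).two_dvd
  have hnm : (n : ℤ) = 2 * m + 1 := by exact_mod_cast hm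
  rw [hnm]
  refine ⟨-m * a + (2 * m + 1) * (b + c) + m * d, ?_⟩
  linear_combination (8 * (m : ℤ)) * hd

end three

end Pool.Agent.HS37.LD
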